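import Pool.Agent.helper40.SU.SpecC

set_option autoImplicit false

open Finset

namespace Pool.Agent.SU

theorem PPB_sq {D D' : ℕ} (hD : Squarefree D) (hD' : Squarefree D') (hne : D ≠ D') : ¬ IsSquare (D * D') := by
  rintro ⟨m, hm⟩
  apply hne
  have h0 : D ≠ 0 := hD.ne_zero
  have h0' : D' ≠ 0 := hD'.ne_zero
  have hm0 : m ≠ 0 := by
    rintro rfl
    rw [mul_zero, Nat.mul_eq_zero] at hm
    rcases hm with h | h
    · exact h0 h
    · exact h0' h
  refine Nat.eq_of_factorization_eq h0 h0' fun p => ?_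
  have h1 := hD.natFactorization_le_one p
  have h2 := hD'.natFactorization_le_one p
  have h3 : (D * D').factorization p = (m * m).factorization p := by rw [hm]
  rw [Nat.factorization_mul h0 h0', Nat.factorization_mul hm0 hm0, Finsupp.add_apply, Finsupp.add_apply] at h3
  omega

theorem PPB_first {q D D' G N : ℕ} {T δ η j C X S w g g' : ℝ} (hq : 1 ≤ q) (hδ : 0 < δ) (hη : 0 < η) (hT : 1 ≤ T)
    (hD : 1 ≤ D) (hD' : 1 ≤ D') (hj : 1 ≤ j) (hjT : j ≤ T ^ (1 / 16 : ℝ)) (hG1 : 1 ≤ G) (hG : (G : ℝ) ≤ T ^ (1 / 2 : ℝ))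
    (hN : (N : ℝ) ≤ T ^ (1 / 2 : ℝ)) (hGN : 16 * q * (N : ℝ) ≤ η * δ * G) (hbig : 16 * q / (δ * η) ≤ T ^ (7 / 16 : ℝ))
    (hX0 : 0 ≤ X) (hC : C ≤ j ^ 2 * w * g * g')
    (hw : 0 ≤ w) (hg : 0 ≤ g) (hg' : 0 ≤ g')
    (hX : X ≤ δ * T / (4 * q * j) * S + G + (2 * T / (j * G) + 1) * N) :
    C * X * (δ ^ 4 * T / (1024 * q ^ 2 * √(D : ℝ) * √(D' : ℝ) * j)) ≤
      δ ^ 5 * T ^ 2 / (4096 * q ^ 3) * (w * ((cD D * g) * (cD D' * g')) * (S + η)) := by
  have hq0 : (0 : ℝ) < q := by exact_mod_cast hq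
  have hG0 : (0 : ℝ) < G := by exact_mod_cast hG1
  have hj0 : 0 < j := by linarith
  have hT0 : 0 < T := by linarith
  have hN0 : (0 : ℝ) ≤ N := Nat.cast_nonneg N
  have hsD : 0 < √(D : ℝ) := Real.sqrt_pos.2 (by exact_mod_cast hD)
  have hsD' : 0 < √(D' : ℝ) := Real.sqrt_pos.2 (by exact_mod_cast hD')
  -- the error terms
  have e1 : 2 * T * N / G ≤ δ * T * η / (8 * q) := by
    rw [div_le_div_iff₀ hG0 (by positivity)]
    nlinarith
  have e2 : j * (G + N) ≤ δ * T * η / (8 * q) := by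
    have h1 : j * (G + N) ≤ T ^ (1 / 16 : ℝ) * (T ^ (1 / 2 : ℝ) + T ^ (1 / 2 : ℝ)) := by gcongr
    have h2 : T ^ (1 / 16 : ℝ) * (T ^ (1 / 2 : ℝ) + T ^ (1 / 2 : ℝ)) = 2 * T ^ (9 / 16 : ℝ) := by
      rw [← two_mul, mul_left_comm, ← Real.rpow_add hT0]
      norm_num
    have h3 : T = T ^ (9 / 16 : ℝ) * T ^ (7 / 16 : ℝ) := by
      rw [← Real.rpow_add hT0]
      norm_num
    have h4 : 2 * T ^ (9 / 16 : ℝ) * (8 * q) ≤ δ * T * η := by
      have h5 : 16 * (q : ℝ) ≤ T ^ (7 / 16 : ℝ) * (δ * η) := by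
        rwa [div_le_iff₀ (by positivity)] at hbig
      have h6 : 0 < T ^ (9 / 16 : ℝ) := by positivity
      calc 2 * T ^ (9 / 16 : ℝ) * (8 * q) = T ^ (9 / 16 : ℝ) * (16 * q) := by ring
        _ ≤ T ^ (9 / 16 : ℝ) * (T ^ (7 / 16 : ℝ) * (δ * η)) := by gcongr
        _ = δ * (T ^ (9 / 16 : ℝ) * T ^ (7 / 16 : ℝ)) * η := by ring
        _ = δ * T * η := by rw [← h3]
    rw [le_div_iff₀ (by positivity)]
    calc j * (G + N) * (8 * q) ≤ 2 * T ^ (9 / 16 : ℝ) * (8 * q) := by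
          rw [← h2]
          gcongr
      _ ≤ _ := h4
  have e3 : X ≤ δ * T / (4 * q * j) * (S + η) := by
    refine hX.trans ?_
    have h1 : δ * T / (4 * q * j) * (S + η) = δ * T / (4 * q * j) * S + (δ * T * η / (8 * q) + δ * T * η / (8 * q)) / j := by
      field_simp
      ring
    have h2 : (G : ℝ) + (2 * T / (j * G) + 1) * N = (j * (G + N) + 2 * T * N / G) / j := by
      field_simp
      ring
    rw [h1, add_assoc, h2]
    gcongr
  set a : ℝ := δ ^ 4 * T / (1024 * q ^ 2 * √(D : ℝ) * √(D' : ℝ) * j) with ha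
  have ha0 : 0 ≤ a := by positivity
  calc C * X * a ≤ (j ^ 2 * w * g * g') * X * a := by gcongr
    _ = ((j ^ 2 * w * g * g') * a) * X := by ring
    _ ≤ ((j ^ 2 * w * g * g') * a) * (δ * T / (4 * q * j) * (S + η)) := by gcongr
    _ = _ := by
      rw [ha]
      unfold cD
      field_simp
      ring

theorem PPB (hPGD : PGD_stmt) (hSMR : SMR_stmt) (hLRG : LRG_stmt) (hCJB : CJB_stmt) (hRHO : RHO_stmt) (hTAU : TAU_stmt) :
    PPB_stmt := by
  classical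
  obtain ⟨Z1, hZ1⟩ := hLRG
  obtain ⟨Z2, hZ2⟩ := hTAU (1 / 100) (by norm_num)
  refine ⟨max Z1 Z2, fun Z hZ q δ η hq hSm hδ hδ1 hη => ?_⟩
  obtain ⟨T1, hT1⟩ := hZ1 Z (le_trans (le_max_left _ _) hZ) q hq hSm
  obtain ⟨hτ, -⟩ := hZ2 Z (le_trans (le_max_right _ _) hZ) q hSm
  have hq1 : 1 ≤ q := hq.pos
  have ev1 : ∀ᶠ T : ℝ in Filter.atTop, 16 * q / (δ * η) ≤ T ^ (7 / 16 : ℝ) :=
    (tendsto_rpow_atTop (by norm_num)).eventually_ge_atTop _
  have ev2 : ∀ᶠ T : ℝ in Filter.atTop, 55 ≤ T ^ (1 / 6000 : ℝ) :=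
    (tendsto_rpow_atTop (by norm_num)).eventually_ge_atTop _
  obtain ⟨T2, hT2⟩ := Filter.eventually_atTop.1 (ev1.and (ev2.and (Filter.eventually_ge_atTop (1 : ℝ))))
  refine ⟨max T1 T2, fun T hT s₀ w₀ D D' G hw hD hD' hne h3 h3' hc hc' hR hR' hG1 hG hGD => ?_⟩
  obtain ⟨hbig, h55, hT1'⟩ := hT2 T (le_trans (le_max_right _ _) hT)
  have hT0 : 0 < T := by linarith
  have hlrg := hT1 T (le_trans (le_max_left _ _) hT) δ s₀ w₀ D D' hδ hδ1 hw hD hD' hne hR hR'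
  set P := PP q s₀ w₀ T δ D D' with hP
  set J := ⌊T ^ (1 / 16 : ℝ)⌋₊ with hJ
  set N := D * D' with hN
  have hJT : (J : ℝ) ≤ T ^ (1 / 16 : ℝ) := Nat.floor_le (by positivity)
  have hD1 : 1 ≤ D := Nat.one_le_iff_ne_zero.2 hD.ne_zero
  have hD1' : 1 ≤ D' := Nat.one_le_iff_ne_zero.2 hD'.ne_zero
  have hNco : N.Coprime (2 * q) := by
    have a1 : D.Coprime 2 := by
      rw [Nat.coprime_comm, Nat.coprime_two_left]
      exact Nat.odd_iff.2 (by omega)
    have a2 : D'.Coprime 2 := by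
      rw [Nat.coprime_comm, Nat.coprime_two_left]
      exact Nat.odd_iff.2 (by omega)
    exact Nat.Coprime.mul_left (Nat.Coprime.mul_right a1 hc) (Nat.Coprime.mul_right a2 hc')
  have hN4 : N % 4 = 1 := by
    have : N % 8 = 1 := by
      rw [hN, Nat.mul_mod, h3, h3']
    omega
  have hNsq : ¬ IsSquare N := PPB_sq hD hD' hne
  have hNT : (N : ℝ) ≤ T ^ (1 / 2 : ℝ) := by
    have h1 : (N : ℝ) ≤ T ^ (1 / 5000 : ℝ) * T ^ (1 / 5000 : ℝ) := by
      rw [hN]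
      push_cast
      gcongr
    rw [← Real.rpow_add hT0] at h1
    exact h1.trans (Real.rpow_le_rpow_of_exponent_le hT1' (by norm_num))
  -- the sum of rr
  set X : ℕ → ℝ := fun j => ∑ h ∈ Wj q w₀ T δ j, (rr N h : ℝ) with hX
  have hWco : ∀ j h, h ∈ Wj q w₀ T δ j → (j * h).Coprime (2 * q) := by
    intro j h hh
    unfold Wj at hh
    have h1 := (Finset.mem_filter.1 hh).2.1
    have h2 : (j * h) ≡ w₀ [MOD 2 * q] := h1.of_dvd ⟨2, by ring⟩
    have h4 := h2.gcd_eq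
    unfold Nat.Coprime at hw ⊢
    rw [h4]
    exact hw
  have hWodd : ∀ j h, h ∈ Wj q w₀ T δ j → h.Coprime (2 * q) ∧ Odd h := by
    intro j h hh
    have h1 := (hWco j h hh).coprime_mul_left
    refine ⟨h1, ?_⟩
    rw [← Nat.coprime_two_right]
    exact h1.coprime_mul_right_right
  have hX0 : ∀ j, 0 ≤ X j := by
    intro j
    refine Finset.sum_nonneg fun h hh => ?_
    exact_mod_cast (hRHO.2 h N (hWodd j h hh).2).1
  have hXz : ∀ j, ¬ j.Coprime (2 * q) → X j = 0 := by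
    intro j hj
    refine Finset.sum_eq_zero fun h hh => ?_
    exact absurd ((hWco j h hh).coprime_mul_right) hj
  set E : ℝ := √(T ^ (1 / 5000 : ℝ) * T) + 8 with hE
  have hE0 : 0 ≤ E := by positivity
  set A : ℕ → ℝ := fun j => δ ^ 4 * T / (1024 * q ^ 2 * √(D : ℝ) * √(D' : ℝ) * j) with hA
  have hA0 : ∀ j, 0 ≤ A j := fun j => by
    rw [hA]
    positivity
  have hpgd : ∀ j, 1 ≤ j → ((P.filter (fun x => irr D x.1 x.2.2 = j)).card : ℝ) ≤ (Cst j D D').card * X j * (A j + E) := by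
    intro j hj
    have h1 := hPGD q s₀ w₀ D D' j T δ (T ^ (1 / 5000 : ℝ)) hq hw hT1' hδ hδ1 hD hD' hne hR hR' hj
    have h2 : A j + E = δ ^ 4 * T / (1024 * q ^ 2 * √(D : ℝ) * √(D' : ℝ) * j) + √(T ^ (1 / 5000 : ℝ) * T) + 8 := by
      rw [hA, hE, add_assoc]
    rw [h2]
    exact h1
  -- decomposition
  have hdec : (P.card : ℝ) ≤ ((P.filter (fun x => T ^ (1 / 16 : ℝ) < (irr D x.1 x.2.2 : ℝ))).card : ℝ) +
      ∑ j ∈ cop q J, ((P.filter (fun x => irr D x.1 x.2.2 = j)).card : ℝ) := by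
    have h1 : P ⊆ (P.filter (fun x => T ^ (1 / 16 : ℝ) < (irr D x.1 x.2.2 : ℝ))) ∪
        (Icc 1 J).biUnion (fun j => P.filter (fun x => irr D x.1 x.2.2 = j)) := by
      intro x hx
      rw [Finset.mem_union]
      by_cases hi : T ^ (1 / 16 : ℝ) < (irr D x.1 x.2.2 : ℝ)
      · exact Or.inl (Finset.mem_filter.2 ⟨hx, hi⟩)
      · right
        rw [not_lt] at hi
        refine Finset.mem_biUnion.2 ⟨irr D x.1 x.2.2, Finset.mem_Icc.2 ⟨?_, Nat.le_floor hi⟩, Finset.mem_filter.2 ⟨hx, rfl⟩⟩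
        unfold irr
        refine Nat.one_le_iff_ne_zero.2 (Finset.prod_ne_zero_iff.2 fun p hp => ?_)
        have hpp := Nat.prime_of_mem_primeFactors (Finset.mem_filter.1 hp).1
        exact pow_ne_zero _ hpp.ne_zero
    have h2 : P.card ≤ (P.filter (fun x => T ^ (1 / 16 : ℝ) < (irr D x.1 x.2.2 : ℝ))).card +
        ∑ j ∈ Icc 1 J, (P.filter (fun x => irr D x.1 x.2.2 = j)).card :=
      (Finset.card_le_card h1).trans ((Finset.card_union_le _ _).trans (Nat.add_le_add_left Finset.card_biUnion_le _))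
    have h3 : ∑ j ∈ cop q J, ((P.filter (fun x => irr D x.1 x.2.2 = j)).card : ℝ) =
        ∑ j ∈ Icc 1 J, ((P.filter (fun x => irr D x.1 x.2.2 = j)).card : ℝ) := by
      unfold cop
      refine Finset.sum_filter_of_ne fun j hj hne0 => ?_
      by_contra hcon
      have h4 := hpgd j (Finset.mem_Icc.1 hj).1
      rw [hXz j hcon, mul_zero, zero_mul] at h4
      exact hne0 (le_antisymm h4 (Nat.cast_nonneg _))
    rw [h3]
    exact_mod_cast h2
  set S : ℝ := ∑ g ∈ cop q G, 1 / (g : ℝ) * (jacobiSym ((D * D' : ℕ) : ℤ) g : ℝ) with hS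
  set K : ℝ := (3 * T) * (2 * T) ^ (1 / 100 : ℝ) with hK
  have hK0 : 0 ≤ K := by positivity
  -- each term
  have hterm : ∀ j ∈ cop q J, ((P.filter (fun x => irr D x.1 x.2.2 = j)).card : ℝ) ≤
      δ ^ 5 * T ^ 2 / (4096 * q ^ 3) * (wj j * ((cD D * gw D j) * (cD D' * gw D' j)) * (S + η)) +
        (T ^ (1 / 16 : ℝ)) ^ 2 * K * E := by
    intro j hj
    obtain ⟨hj1, hjco⟩ := Finset.mem_filter.1 hj
    obtain ⟨hj1, hjJ⟩ := Finset.mem_Icc.1 hj1
    have hjT : (j : ℝ) ≤ T ^ (1 / 16 : ℝ) := (Nat.cast_le.2 hjJ).trans hJT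
    have hj1r : (1 : ℝ) ≤ j := by exact_mod_cast hj1
    have hjodd : Odd j := by
      rw [← Nat.coprime_two_right]
      exact hjco.coprime_mul_right_right
    refine (hpgd j hj1).trans ?_
    rw [mul_add]
    refine add_le_add ?_ ?_
    · have hcjb := hCJB j D D' hjodd hD hD'
      have hsmr := hSMR q w₀ j N G T δ hq hw hjco hNco hN4 hNsq hT1' hδ hδ1 hj1 hG1
      have hw0 : 0 ≤ wj j := by
        unfold wj
        positivity
      have hgw0 : ∀ D, 0 ≤ gw D j := fun D => by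
        unfold gw
        positivity
      refine PPB_first hq1 hδ hη hT1' hD1 hD1' hj1r hjT hG1 hG hNT ?_ hbig (hX0 j) hcjb hw0 (hgw0 D) (hgw0 D') hsmr
      rw [hN]
      push_cast
      exact hGD
    · have hC2 : ((Cst j D D').card : ℝ) ≤ (T ^ (1 / 16 : ℝ)) ^ 2 := by
        have h1 : (Cst j D D').card ≤ j * j := by
          unfold Cst
          refine (Finset.card_filter_le _ _).trans ?_
          rw [Finset.card_product, Finset.card_range]
        calc ((Cst j D D').card : ℝ) ≤ ((j * j : ℕ) : ℝ) := by exact_mod_cast h1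
          _ = (j : ℝ) ^ 2 := by
            push_cast
            ring
          _ ≤ _ := by gcongr
      have hXK : X j ≤ K := by
        have h1 : ∀ h ∈ Wj q w₀ T δ j, (rr N h : ℝ) ≤ (2 * T) ^ (1 / 100 : ℝ) := by
          intro h hh
          obtain ⟨hco, hodd⟩ := hWodd j h hh
          have hh1 : 1 ≤ h := hodd.pos
          have h2 : (rr N h : ℝ) ≤ (h.divisors.card : ℝ) := by exact_mod_cast (hRHO.2 h N hodd).2
          have h4 : (h : ℝ) ≤ 2 * T := by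
            unfold Wj at hh
            have h5 := (Finset.mem_filter.1 hh).2.2.2
            have h6 : (0 : ℝ) ≤ h := Nat.cast_nonneg h
            nlinarith
          exact h2.trans ((hτ h hh1 hco).1.trans (Real.rpow_le_rpow (Nat.cast_nonneg h) h4 (by norm_num)))
        have h2 : ((Wj q w₀ T δ j).card : ℝ) ≤ 3 * T := by
          have h3 : (Wj q w₀ T δ j).card ≤ ⌊2 * T⌋₊ + 1 := by
            unfold Wj
            refine (Finset.card_filter_le _ _).trans ?_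
            rw [Finset.card_range]
          have h4 : ((⌊2 * T⌋₊ : ℕ) : ℝ) ≤ 2 * T := Nat.floor_le (by positivity)
          have h5 : ((Wj q w₀ T δ j).card : ℝ) ≤ ((⌊2 * T⌋₊ + 1 : ℕ) : ℝ) := by exact_mod_cast h3
          push_cast at h5
          linarith
        calc X j ≤ ∑ _h ∈ Wj q w₀ T δ j, (2 * T) ^ (1 / 100 : ℝ) := Finset.sum_le_sum h1
          _ = ((Wj q w₀ T δ j).card : ℝ) * (2 * T) ^ (1 / 100 : ℝ) := by rw [Finset.sum_const, nsmul_eq_mul]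
          _ ≤ K := by
            rw [hK]
            gcongr
      have := hX0 j
      gcongr
  have hsum := Finset.sum_le_sum hterm
  rw [Finset.sum_add_distrib, ← Finset.mul_sum, Finset.sum_const, nsmul_eq_mul] at hsum
  -- the second part
  have hcard : ((cop q J).card : ℝ) ≤ T ^ (1 / 16 : ℝ) := by
    have h1 : (cop q J).card ≤ J := by
      unfold cop
      refine (Finset.card_filter_le _ _).trans ?_
      rw [Nat.card_Icc, Nat.add_sub_cancel]
    exact (Nat.cast_le.2 h1).trans hJT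
  have hsec : ((cop q J).card : ℝ) * ((T ^ (1 / 16 : ℝ)) ^ 2 * K * E) ≤ 54 * T ^ (2 - 1 / 2000 : ℝ) := by
    have h1 : (2 * T) ^ (1 / 100 : ℝ) ≤ 2 * T ^ (1 / 100 : ℝ) := by
      rw [Real.mul_rpow (by norm_num) hT0.le]
      have : (2 : ℝ) ^ (1 / 100 : ℝ) ≤ 2 ^ (1 : ℝ) := Real.rpow_le_rpow_of_exponent_le (by norm_num) (by norm_num)
      rw [Real.rpow_one] at this
      gcongr
    have h2 : E ≤ 9 * T ^ (51 / 100 : ℝ) := by
      have h3 : √(T ^ (1 / 5000 : ℝ) * T) ≤ T ^ (51 / 100 : ℝ) := by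
        have h4 : T ^ (1 / 5000 : ℝ) * T = T ^ (1 / 5000 + 1 : ℝ) := by
          rw [Real.rpow_add hT0, Real.rpow_one]
        rw [h4, Real.sqrt_eq_rpow, ← Real.rpow_mul hT0.le]
        exact Real.rpow_le_rpow_of_exponent_le hT1' (by norm_num)
      have h5 : (1 : ℝ) ≤ T ^ (51 / 100 : ℝ) := Real.one_le_rpow hT1' (by norm_num)
      rw [hE]
      linarith
    have h6 : T ^ (1 / 16 : ℝ) * ((T ^ (1 / 16 : ℝ)) ^ 2 * ((3 * T) * (2 * T ^ (1 / 100 : ℝ))) * (9 * T ^ (51 / 100 : ℝ))) =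
        54 * T ^ (1 / 16 + (1 / 16 + 1 / 16 + 1 + 1 / 100 + 51 / 100) : ℝ) := by
      rw [Real.rpow_add hT0, Real.rpow_add hT0, Real.rpow_add hT0, Real.rpow_add hT0, Real.rpow_add hT0, Real.rpow_one]
      ring
    calc ((cop q J).card : ℝ) * ((T ^ (1 / 16 : ℝ)) ^ 2 * K * E)
        ≤ T ^ (1 / 16 : ℝ) * ((T ^ (1 / 16 : ℝ)) ^ 2 * ((3 * T) * (2 * T ^ (1 / 100 : ℝ))) * (9 * T ^ (51 / 100 : ℝ))) := by
          rw [hK]
          gcongr
      _ = 54 * T ^ (1 / 16 + (1 / 16 + 1 / 16 + 1 + 1 / 100 + 51 / 100) : ℝ) := h6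
      _ ≤ 54 * T ^ (2 - 1 / 2000 : ℝ) := by
          have := Real.rpow_le_rpow_of_exponent_le hT1' (show (1 / 16 + (1 / 16 + 1 / 16 + 1 + 1 / 100 + 51 / 100) : ℝ) ≤ 2 - 1 / 2000 by norm_num)
          linarith
  have hfin : 55 * T ^ (2 - 1 / 2000 : ℝ) ≤ T ^ (2 - 1 / 3000 : ℝ) := by
    have h1 : T ^ (2 - 1 / 3000 : ℝ) = T ^ (1 / 6000 : ℝ) * T ^ (2 - 1 / 2000 : ℝ) := by
      rw [← Real.rpow_add hT0]
      norm_num
    rw [h1]
    gcongr
  linarith

end Pool.Agent.SU
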